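import Mathlib
import Pool.Agent.Helper597.BiDelayDefs
import Pool.Agent.Helper597.BiDelay

set_option autoImplicit false

namespace Pool.Agent.Results.MP_733b23_lc.CompleteExtension

open Pool.Agent.Helper597.BiDelay

/-- (1) Every code with bi-delay `(d, e)` is contained in a complete code with bi-delay `(d, e)`.
(2) A code with bi-delay `(d, e)` which is not complete can be enlarged by one new word, keeping the
bi-delay `(d, e)`, and keeping regularity if the code is regular.
(3) Hence a regular code with bi-delay `(d, e)` which is maximal among the regular codes with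
bi-delay `(d, e)` is complete. -/
theorem result {A : Type*} (d e : ℕ) :
    (∀ X : Set (List A), IsCode X → LeftDelay X d → RightDelay X e →
      ∃ Y : Set (List A), X ⊆ Y ∧ IsCode Y ∧ LeftDelay Y d ∧ RightDelay Y e ∧ IsComplete Y) ∧
    (∀ X : Set (List A), IsCode X → LeftDelay X d → RightDelay X e → ¬ IsComplete X →
      ∃ z : List A, z ∉ X ∧ IsCode (insert z X) ∧ LeftDelay (insert z X) d ∧
        RightDelay (insert z X) e ∧
        (Language.IsRegular (T := A) X → Language.IsRegular (T := A) (insert z X))) ∧
    (∀ X : Set (List A), IsCode X → LeftDelay X d → RightDelay X e →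
      Language.IsRegular (T := A) X →
      (∀ Y : Set (List A), X ⊆ Y → IsCode Y → LeftDelay Y d → RightDelay Y e →
        Language.IsRegular (T := A) Y → Y = X) → IsComplete X) := by
  refine ⟨fun X h1 h2 h3 => exists_complete X d e h1 h2 h3, fun X h1 h2 h3 h4 => ?_,
    fun X h1 h2 h3 hreg hmax => ?_⟩
  · obtain ⟨z, hz, c1, c2, c3⟩ := enlarge X d e h1 h2 h3 h4
    exact ⟨z, hz, c1, c2, c3, fun hr => regular_insert X z hr⟩
  · by_contra h4
    obtain ⟨z, hz, c1, c2, c3⟩ := enlarge X d e h1 h2 h3 h4
    have h5 := hmax (insert z X) (Set.subset_insert z X) c1 c2 c3 (regular_insert X z hreg)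
    exact hz (h5 ▸ Set.mem_insert z X)

end Pool.Agent.Results.MP_733b23_lc.CompleteExtension
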